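import Pool.Agent.WO94.Orders

/-!
# Semisimple Frobenius on average

For a hypersurface `X : f = 0` of degree `d` in projective `(n+1)`-space the Cech classes
`x^(-u)`, `u > 0`, `|u| = d`, form a basis of `H^n(X,O)`, and the coefficient of `x^(-v)` in
`F(x^(-u))` is the coefficient of `x^(pu-v)` in `f^(p-1)` (the case `s = 1` below). For a double
cover `X : y^2 = f(x_0,..,x_n)`, `f` homogeneous of degree `2r`, the same holds for `p` odd
with the classes `y x^(-u)`, `u > 0`, `|u| = r`, and `f^((p-1)/2)` (the case `s = 2`).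

The coefficient of `x^(pu-v)` in `f^m` is written as that of `x^(pu)` in `x^v f^m`.
-/

theorem Pool.Agent.Results.MP_44c6a0_ag.AveragePencils.result
    {ι : Type} [Fintype ι] [DecidableEq ι] {R : Type} [CommRing R] {r : ℕ}
    (ω : Module.Basis (Fin r) ℤ R) (s : ℕ) (hs : 1 ≤ s) (U : Finset (ι →₀ ℕ))
    (g : MvPolynomial ι R) (P : Finset ℕ) (M : ℕ → Ideal R)
    (hP : ∀ p ∈ P, p.Prime ∧ s ∣ p - 1 ∧ (M p).IsMaximal ∧ (p : R) ∈ M p)
    (ε : ℝ) (hε : 0 ≤ ε) (N : ℕ) :
    Set.ncard {c : U × Fin r → ℤ | (∀ x, |c x| ≤ (N : ℤ)) ∧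
        ((Set.ncard {p : ℕ | p ∈ P ∧
            (Matrix.of fun u v : U => MvPolynomial.coeff (p • u.1)
              (MvPolynomial.monomial v.1 1 *
                MvPolynomial.map (Ideal.Quotient.mk (M p))
                  (g + ∑ w : U, MvPolynomial.monomial (s • w.1) (∑ j, c (w, j) • ω j))
                    ^ ((p - 1) / s))).det ≠ 0} : ℕ) : ℝ)
          ≤ (1 - ε) *
            ∑ p ∈ P, (1 - (((p - 1) / s : ℕ) : ℝ) / Nat.card (R ⧸ M p)) ^ U.card}
      ≤ Real.exp (-(ε ^ 2 / 2 *
          ∑ p ∈ P, (1 - (((p - 1) / s : ℕ) : ℝ) / Nat.card (R ⧸ M p)) ^ U.card)) *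
        (2 * N + 1 + ∏ p ∈ P, (p : ℝ)) ^ (U.card * r) := by
  classical
  have h := WO94.main ω s hs U g P M hP ε hε N
  rw [Nat.cast_prod] at h
  refine le_trans (le_of_eq ?_) h
  refine congrArg _ (Eq.trans (congrArg Set.ncard ?_) (Set.ncard_coe_finset _))
  ext c
  simp only [Set.mem_setOf_eq, Finset.coe_filter, WO94.box, Fintype.mem_piFinset, Finset.mem_Icc,
    abs_le]
  have h1 : Set.ncard {p : ℕ | p ∈ P ∧
            (Matrix.of fun u v : U => MvPolynomial.coeff (p • u.1)
              (MvPolynomial.monomial v.1 1 *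
                MvPolynomial.map (Ideal.Quotient.mk (M p))
                  (g + ∑ w : U, MvPolynomial.monomial (s • w.1) (∑ j, c (w, j) • ω j))
                    ^ ((p - 1) / s))).det ≠ 0}
      = (P.filter fun p => (WO94.frob U p ((p - 1) / s)
          (MvPolynomial.map (Ideal.Quotient.mk (M p))
            (WO94.addMon U s g (fun u => WO94.elt ω (fun j => c (u, j)))))).det ≠ 0).card := by
    rw [← Set.ncard_coe_finset]
    congr 1
    ext p
    simp only [Finset.coe_filter, Set.mem_setOf_eq]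
    rfl
  rw [h1]
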