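import Pool.Agent.WO94.Inert

/-!
# Semisimple Frobenius at all inert primes up to a power of the height, on average

For a hypersurface `X : f = 0` of degree `d` in projective `(n+1)`-space the Cech classes
`x^(-u)`, `u > 0`, `|u| = d`, form a basis of `H^n(X,O)`, and the coefficient of `x^(-v)` in
`F(x^(-u))` is the coefficient of `x^(pu-v)` in `f^(p-1)` (the case `s = 1` below). For a double
cover `X : y^2 = f(x_0,..,x_n)`, `f` homogeneous of degree `2r`, the same holds for `p` odd
with the classes `y x^(-u)`, `u > 0`, `|u| = r`, and `f^((p-1)/2)` (the case `s = 2`).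

The coefficient of `x^(pu-v)` in `f^m` is written as that of `x^(pu)` in `x^v f^m`.
The statement bounds the number of `p` in `P` at which the matrix is singular, averaged over
the `(2N+1)^(|U| r)` integer vectors `c` of size at most `N`.
-/

theorem Pool.Agent.Results.MP_44c6a0_ag.InertPrimes.result
    {ι : Type} [Fintype ι] [DecidableEq ι] {R : Type} [CommRing R] {r : ℕ}
    (ω : Module.Basis (Fin r) ℤ R) (s : ℕ) (hs : 1 ≤ s) (U : Finset (ι →₀ ℕ))
    (g : MvPolynomial ι R) (P : Finset ℕ) (M : ℕ → Ideal R)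
    (hP : ∀ p ∈ P, p.Prime ∧ s ∣ p - 1 ∧ (M p).IsMaximal ∧ (p : R) ∈ M p) (N : ℕ) :
    (∑ c ∈ Fintype.piFinset (fun _ : U × Fin r => Finset.Icc (-(N : ℤ)) N),
        ((Set.ncard {p : ℕ | p ∈ P ∧
            (Matrix.of fun u v : U => MvPolynomial.coeff (p • u.1)
              (MvPolynomial.monomial v.1 1 *
                MvPolynomial.map (Ideal.Quotient.mk (M p))
                  (g + ∑ w : U, MvPolynomial.monomial (s • w.1) (∑ j, c (w, j) • ω j))
                    ^ ((p - 1) / s))).det = 0} : ℕ) : ℝ)) / (2 * N + 1) ^ (U.card * r)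
      ≤ ∑ p ∈ P, (U.card * ((p - 1) / s : ℕ) : ℝ) / Nat.card (R ⧸ M p)
          * (1 + p / (2 * N + 1)) ^ r := by
  classical
  have h := WO94.inert_main ω s hs U g P M hP N
  rw [div_le_iff₀ (by positivity)]
  rw [mul_comm]
  push_cast at h
  refine le_trans (le_of_eq ?_) h
  rw [WO94.box]
  refine Finset.sum_congr rfl fun c _ => ?_
  congr 1
  rw [← Set.ncard_coe_finset]
  congr 1
  ext p
  simp only [Finset.coe_filter, Set.mem_setOf_eq]
  rfl
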