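import Pool.Agent.Helper14.LS.Main

/-!
# Semisimple Frobenius for a positive proportion of the primes up to the root of the height,
one-dimensional top cohomology

For a hypersurface `f = 0` of degree `d` in `d` variables `H^(d-2)(X,O)` is spanned by the Cech
class of `1/(x_1 .. x_d)`, and `F` multiplies it by the coefficient of `(x_1 .. x_d)^(p-1)` in
`f^(p-1)`. Take `s = 1`, `u = (1,..,1)`, `B = {d e_1,.., d e_d}`, `k = 1`.
-/

/-- Number of members with few primes in `P` at which Frobenius is semisimple; the primes of `P`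
may go up to the root of the height. -/
theorem Pool.Agent.Results.MP_44c6a0_ag.SimplexToSqrt.result
    {ι : Type} [Fintype ι] [DecidableEq ι] {R : Type} [CommRing R] {r : ℕ}
    (ω : Module.Basis (Fin r) ℤ R) (s : ℕ) (u : ι →₀ ℕ) (B : Finset (ι →₀ ℕ)) (k : B → ℕ)
    (haff : ∀ z : B → ℤ, ∑ b, z b = 0 → (∀ i, ∑ b : B, z b * (b.1 i : ℤ) = 0) → z = 0)
    (hk : ∀ i, ∑ b : B, k b * b.1 i = s * (∑ b, k b) * u i)
    (g : MvPolynomial ι R) (P : Finset ℕ) (Q : ℕ) (M : ℕ → Ideal R)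
    (hP : ∀ p ∈ P, p.Prime ∧ s * (∑ b, k b) ∣ p - 1 ∧ (M p).IsMaximal ∧ (p : R) ∈ M p)
    (hQ : ∀ p ∈ P, p ≤ Q) (ε : ℝ) (hε : 0 ≤ ε) (N : ℕ) :
    Set.ncard {c : B × Fin r → ℤ | (∀ x, |c x| ≤ (N : ℤ)) ∧
        ((Set.ncard {p : ℕ | p ∈ P ∧
            MvPolynomial.coeff ((p - 1) • u)
              (MvPolynomial.map (Ideal.Quotient.mk (M p))
                (g + ∑ b : B, MvPolynomial.monomial b.1 (∑ j, c (b, j) • ω j))
                  ^ ((p - 1) / s)) ≠ 0} : ℕ) : ℝ)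
          ≤ (1 - ε) * ∑ p ∈ P, ∏ b : B,
            (1 - (((p - 1) / (s * ∑ b, k b) * k b : ℕ) : ℝ) / Nat.card (R ⧸ M p))} *
        (ε * ∑ p ∈ P, ∏ b : B,
            (1 - (((p - 1) / (s * ∑ b, k b) * k b : ℕ) : ℝ) / Nat.card (R ⧸ M p))) ^ 2
      ≤ (4 * N + 3 * (Q : ℝ) ^ 2) ^ (B.card * r) *
        ∑ p ∈ P, (1 - ∏ b : B,
            (1 - (((p - 1) / (s * ∑ b, k b) * k b : ℕ) : ℝ) / Nat.card (R ⧸ M p))) := by
  classical
  have h := Pool.Agent.Helper14.LS.main_B ω s u B k haff hk g P Q hQ M hP ε hε N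
  refine le_trans (le_of_eq ?_) h
  congr 1
  refine congrArg _ (Eq.trans (congrArg Set.ncard ?_) (Set.ncard_coe_finset _))
  ext c
  simp only [Set.mem_ofPred_eq, Finset.coe_filter, WO94.box, Fintype.mem_piFinset, Finset.mem_Icc,
    abs_le]
  have h1 : Set.ncard {p : ℕ | p ∈ P ∧
            MvPolynomial.coeff ((p - 1) • u)
              (MvPolynomial.map (Ideal.Quotient.mk (M p))
                (g + ∑ b : B, MvPolynomial.monomial b.1 (∑ j, c (b, j) • ω j))
                  ^ ((p - 1) / s)) ≠ 0}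
      = (P.filter fun p => MvPolynomial.coeff ((p - 1) • u)
          (MvPolynomial.map (Ideal.Quotient.mk (M p))
            (WO94.addB B g (fun b => WO94.elt ω (fun j => c (b, j)))) ^ ((p - 1) / s)) ≠ 0).card := by
    rw [← Set.ncard_coe_finset]
    congr 1
    ext p
    simp only [Finset.coe_filter, Set.mem_ofPred_eq]
    rfl
  rw [h1]
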